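import Pool.Agent.H23.DM.TargetsI
import Pool.Agent.H16.SWX.CD
import Pool.Agent.H19.DM.PI

/-!
# (DC) the decomposition of the half differences
-/

set_option autoImplicit false

open NumberField Complex
open scoped nonZeroDivisors

namespace Pool.Agent.H59.DM.DC

open Pool.Agent.H25.HK Pool.Agent.H23.LB Pool.Agent.H23.LC
open Pool.Agent.H28.RC (Rep ft idl)
open Pool.Agent.H29.TC (Gn LC cq dvs AC MC)
open Pool.Agent.H31.SX (ND RK Gcd LK)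
open Pool.Agent.H81.THC (fi_mono fi_le)
open Pool.Agent.H23.DM

section aux

variable {K : Type} [Field K] [NumberField K]

private lemma le_fin {k : Ideal (𝓞 K)} (hk : k ≠ ⊥) : {e : Ideal (𝓞 K) | k ≤ e}.Finite := by
  have h1 : Fintype {x : Ideal (𝓞 K) // x ∣ k} := UniqueFactorizationMonoid.fintypeSubtypeDvd k hk
  have h3 : Finite {x : Ideal (𝓞 K) // x ∣ k} := Finite.of_fintype _
  refine Set.finite_coe_iff.1 (Finite.of_injective
    (β := {x : Ideal (𝓞 K) // x ∣ k}) (fun e => ⟨e.1, Ideal.dvd_iff_le.2 e.2⟩) ?_)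
  intro a b hab
  exact Subtype.ext (congrArg (fun z : {x : Ideal (𝓞 K) // x ∣ k} => (z : Ideal (𝓞 K))) hab)

private lemma mem_dvs {k e : Ideal (𝓞 K)} (hk : k ≠ ⊥) (h : k ≤ e) : e ∈ dvs K k := by
  unfold dvs
  rw [dif_pos (le_fin hk), Set.Finite.mem_toFinset]
  exact h

end aux

theorem pf_DC (hPI : D_PI) (hSC : D_SC) (hTR : D_TR) (hCC : D_CC)
    (hGX : Pool.Agent.H31.SX.X_GX) (hRX : Pool.Agent.H28.RC.T_RX) : D_DC := by
  classical
  intro K _ _ l k κ θ M x₀ ρ ι J η γ hFP hkκ hκr hκ6 hFM hρ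
  have hl := hFP.lk.l_ne
  have hk := hFP.lk.k_ne
  have hM := hFP.M_ne
  have hlk : l * k ≠ ⊥ := mul_ne_zero hl hk
  have hx₀ : Gn k M x₀ := (Pool.Agent.H29.THC.pf_CQ K (l * k) (fun _ => 0) M x₀ hlk hM
    hFP.gen).2.2 k Ideal.mul_le_right
  have hkr : k ≤ k.radical := Ideal.le_radical
  have hr0 : k.radical ≠ ⊥ := fun h => hk (le_bot_iff.1 (h ▸ hkr))
  have hκ0 : κ ≠ ⊥ := fun h => hk (le_bot_iff.1 (h ▸ hkκ))
  have h2k : Ideal.span {(2 : 𝓞 K)} ⊔ k = ⊤ := by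
    rw [← top_le_iff, ← hFP.lk.big]
    refine sup_le_sup_right ?_ k
    rw [Ideal.span_singleton_le_iff_mem, show (210 : 𝓞 K) = 105 * 2 by norm_num]
    exact Ideal.mul_mem_left _ _ (Ideal.mem_span_singleton_self 2)
  -- the greatest common divisor
  have H1 : ∀ δ : K, ∃ e : Ideal (𝓞 K), k ≤ e ∧
      (2 * δ ∈ ((l * κ : Ideal (𝓞 K)) : FI K) * M → Gcd k M (2 * δ) e ∧ e ≤ κ ∧
        2 * δ ∈ ((l * e : Ideal (𝓞 K)) : FI K) * M ∧ ∃ k' : Ideal (𝓞 K), k = e * k') := by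
    intro δ
    by_cases h : 2 * δ ∈ ((l * κ : Ideal (𝓞 K)) : FI K) * M
    · obtain ⟨e, h1, h2, h3⟩ := hGX K k M (2 * δ) hk hM (fi_le _ M h)
      obtain ⟨h4, h5⟩ := h2 l κ hFP.lk.cop hkκ h
      exact ⟨e, h1.le, fun _ => ⟨h1, h4, h5, h3⟩⟩
    · exact ⟨k, le_rfl, fun h' => absurd h' h⟩
  choose eF heF1 heF2 using H1
  have H2 : ∀ e : Ideal (𝓞 K), ∃ (k' : Ideal (𝓞 K)) (π : 𝓞 K) (y₂ : K),
      (∃ k'' : Ideal (𝓞 K), k = e * k'') → PY k e k' π y₂ := by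
    intro e
    by_cases h : ∃ k'' : Ideal (𝓞 K), k = e * k''
    · obtain ⟨k', hk'⟩ := h
      obtain ⟨π, y₂, h1⟩ := hPI K k e k' hk hk' h2k
      exact ⟨k', π, y₂, fun _ => h1⟩
    · exact ⟨⊥, 0, 0, fun h' => absurd h' h⟩
  choose kF πF yF hPY using H2
  have H3 : ∀ δ : K, ∃ s s' : 𝓞 K, 2 * δ ∈ ((l * κ : Ideal (𝓞 K)) : FI K) * M →
      s * s' - 1 ∈ k ∧ δ - ((s * πF (eF δ) : 𝓞 K) : K) * x₀ ∈ (k : FI K) * M := by
    intro δ
    by_cases h : 2 * δ ∈ ((l * κ : Ideal (𝓞 K)) : FI K) * M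
    · obtain ⟨h1, h2, h3, h4⟩ := heF2 δ h
      obtain ⟨s, s', h5, h6⟩ := hSC K l k (eF δ) (kF (eF δ)) M x₀ δ (πF (eF δ)) (yF (eF δ))
        hFP (hPY _ h4) h3 h1
      exact ⟨s, s', fun _ => ⟨h5, h6⟩⟩
    · exact ⟨0, 0, fun h' => absurd h' h⟩
  choose sF sF' hsF using H3
  -- the classes
  have hfin : Finite (𝓞 K ⧸ k.radical) := Ideal.finiteQuotientOfFreeOfNeBot k.radical hr0
  have : Fintype (𝓞 K ⧸ k.radical) := Fintype.ofFinite _
  let P : Type := {e : Ideal (𝓞 K) // e ∈ dvs K k} × (𝓞 K ⧸ k.radical)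
  let cP : K → P := fun δ => (⟨eF δ, mem_dvs hk (heF1 δ)⟩, Ideal.Quotient.mk k.radical (sF' δ))
  let EQ : P ≃ Fin (Fintype.card P) := Fintype.equivFin P
  have hcard : (Fintype.card P : ℝ) = (dvs K k).card * Nf K k.radical := by
    have h1 : Fintype.card P = (dvs K k).card * Fintype.card (𝓞 K ⧸ k.radical) := by
      rw [Fintype.card_prod, Fintype.card_coe]
    have h2 : Fintype.card (𝓞 K ⧸ k.radical) = Ideal.absNorm k.radical := by
      rw [Ideal.absNorm_apply, Submodule.cardQuot_apply, Nat.card_eq_fintype_card]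
    rw [h1, h2]
    unfold Nf
    push_cast
    ring
  refine ⟨Fintype.card P, fun δ => (EQ (cP δ) : ℕ), hcard.le, fun δ => (EQ (cP δ)).2, ?_⟩
  intro t ht
  have hfr : 0 ≤ Nf K k.radical := zero_le_one.trans (Pool.Agent.H16.SWX.one_le_Nf hr0)
  by_cases hne : ∃ δ₁ : K, δ₁ ≠ 0 ∧ 2 * δ₁ ∈ ((l * κ : Ideal (𝓞 K)) : FI K) * M ∧
      ((EQ (cP δ₁) : ℕ)) = t
  · obtain ⟨δ₁, hδ₁0, hδ₁, hδ₁t⟩ := hne
    obtain ⟨hG₁, he₁κ, hδ₁e, hk₁⟩ := heF2 δ₁ hδ₁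
    have hPY₁ := hPY _ hk₁
    obtain ⟨X₀, -, hX₀⟩ := hx₀.gen ρ hρ
    -- the other half differences of the class
    have hcls : ∀ δ : K, 2 * δ ∈ ((l * κ : Ideal (𝓞 K)) : FI K) * M →
        ((EQ (cP δ) : ℕ)) = t → eF δ = eF δ₁ ∧ sF' δ₁ * X₀ - sF' δ * X₀ ∈ k.radical := by
      intro δ hδ hδt
      have h1 : cP δ = cP δ₁ := EQ.injective (Fin.ext (hδt.trans hδ₁t.symm))
      have h2 := congrArg Prod.fst h1
      have h3 := congrArg Prod.snd h1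
      have h4 : eF δ = eF δ₁ := congrArg Subtype.val h2
      have h5 : Ideal.Quotient.mk k.radical (sF' δ₁) = Ideal.Quotient.mk k.radical (sF' δ) :=
        h3.symm
      rw [Ideal.Quotient.mk_eq_mk_iff_sub_mem] at h5
      refine ⟨h4, ?_⟩
      rw [← sub_mul]
      exact Ideal.mul_mem_right _ _ h5
    set e := eF δ₁ with he
    set k' := kF e with hk'
    set π := πF e with hπ
    set y₂ := yF e with hy₂
    have hek : k = e * k' := hPY₁.ke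
    have hke : k ≤ e := heF1 δ₁
    have he0 : e ≠ ⊥ := fun h => hk (le_bot_iff.1 (h ▸ hke))
    have hkk' : k ≤ k' := by
      rw [hek]
      exact Ideal.mul_le_right
    have hk'0 : k' ≠ ⊥ := fun h => hk (le_bot_iff.1 (h ▸ hkk'))
    have hrk0 : k.radical ⊓ k' ≠ ⊥ := by
      intro h
      have h1 : k ≤ k.radical ⊓ k' := le_inf hkr hkk'
      rw [h] at h1
      exact hk (le_bot_iff.1 h1)
    obtain ⟨X₂, hX₂, -⟩ := hRX K (k.radical ⊓ k') (Mz K e) hrk0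
      (Pool.Agent.H19.DM.PI.Mz_ne he0)
    have hTR1 : ∀ δ : K, 2 * δ ∈ ((l * κ : Ideal (𝓞 K)) : FI K) * M →
        ((EQ (cP δ) : ℕ)) = t → _ := fun δ hδ hδt =>
      hTR K l k e k' M x₀ ρ δ π (sF δ) (sF' δ) X₀ (sF' δ₁ * X₀) y₂ hFP hPY₁
        (he₁κ.trans hκr) hρ hX₀
        (by rw [← (hcls δ hδ hδt).1]; exact (heF2 δ hδ).2.2.1) (hsF δ hδ).1
        (by rw [hπ, ← (hcls δ hδ hδt).1]; exact (hsF δ hδ).2) (hcls δ hδ hδt).2
    have hsq : ((Real.sqrt (Nf K k') : ℝ) : ℂ) ≠ 0 := by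
      rw [Ne, Complex.ofReal_eq_zero, Real.sqrt_eq_zero']
      have := Pool.Agent.H16.SWX.one_le_Nf hk'0
      linarith
    refine ⟨e, k', fun i ν => ft K X₂ (PhZ k k.radical e π (sF' δ₁ * X₀) y₂ (η i)) ν /
      ((Real.sqrt (Nf K k') : ℝ) : ℂ), he₁κ, he0, hk'0, ⟨hek, ?_, ?_, ?_, ?_⟩, ?_⟩
    · rintro δ ⟨hδ0, hδ, hδt⟩
      refine ⟨hδ0, ?_⟩
      rw [← (hcls δ hδ hδt).1]
      exact (heF2 δ hδ).2.2.1
    · intro i hi x _
      exact Pool.Agent.H16.SWX.norm_cq (hFM.lc i hi).mc x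
    · rintro δ ⟨hδ0, hδ, hδt⟩ i hi x hx s hs
      exact (hTR1 δ hδ hδt).1 (η i) (hFM.lc i hi).mc x hx s hs
    · rintro δ ⟨hδ0, hδ, hδt⟩
      obtain ⟨-, -, φ, hφ, h3⟩ := hTR1 δ hδ hδt
      refine ⟨φ, hφ, ?_⟩
      intro i hi X hX ξ hξ
      rw [h3 (η i) (hFM.lc i hi).mc X X₂ hX hX₂ ξ hξ]
      field_simp
    · exact hCC K k κ e k' θ ι J η γ π (sF' δ₁ * X₀) y₂ X₂ hk hFP.lk.big hkκ hκr hκ6 hFM
        hPY₁ he₁κ hX₂ (hTR1 δ₁ hδ₁ hδ₁t).2.1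
  · -- no half difference has this class
    obtain ⟨b, hb⟩ : ∃ b : Ideal (𝓞 K), k = κ * b := Ideal.dvd_iff_le.2 hkκ
    have hkb : k ≤ b := by
      rw [hb]
      exact Ideal.mul_le_right
    have hb0 : b ≠ ⊥ := fun h => hk (le_bot_iff.1 (h ▸ hkb))
    have hA : ∀ δ : K, ¬ (δ ≠ 0 ∧ 2 * δ ∈ ((l * κ : Ideal (𝓞 K)) : FI K) * M ∧
        ((EQ (cP δ) : ℕ)) = t) := fun δ h => hne ⟨δ, h⟩
    refine ⟨κ, b, fun _ _ => 0, le_rfl, hκ0, hb0, ⟨hb, ?_, ?_, ?_, ?_⟩, ⟨?_, ?_, ?_⟩⟩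
    · intro δ hδ
      exact absurd hδ (hA δ)
    · intro i hi x _
      exact Pool.Agent.H16.SWX.norm_cq (hFM.lc i hi).mc x
    · intro δ hδ
      exact absurd hδ (hA δ)
    · intro δ hδ
      exact absurd hδ (hA δ)
    · intro i _ ν _
      simpa using hfr
    · intro i _ h
      exact absurd rfl h
    · intro i _ j _
      have hg0 : b ⊔ Ideal.span {γ i - γ j} ≠ ⊥ := fun h => hb0 (le_bot_iff.1 (h ▸ le_sup_left))
      have hg1 := Pool.Agent.H16.SWX.one_le_Nf hg0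
      refine ⟨fun _ => 0, b ⊔ Ideal.span {γ i - γ j}, hg0, ?_, ?_, ?_, ?_, ?_, ?_⟩
      · exact le_mul_of_one_le_right (by linarith) (Pool.Agent.H16.SWX.one_le_Nf hr0)
      · intro x _ s _
        rfl
      · intro x _
        have hb1 := Pool.Agent.H16.SWX.one_le_Nf hb0
        rw [norm_zero, zero_pow two_ne_zero]
        exact div_nonneg (by linarith) (by linarith)
      · intro x _ h
        exact absurd rfl h
      · intro h
        exact absurd rfl h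
      · intro X _ ν _
        unfold ft
        simp

end Pool.Agent.H59.DM.DC
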