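import Pool.Agent.H71.DM.Targets
import Pool.Agent.H71.DM.Basic

set_option autoImplicit false

/-!
Pigeonhole for regions (module PIG).
-/

namespace Pool.Agent.H59.DM

open Finset Pool.Agent.H71.DM

theorem pig : PigStmt := by
  intro V _ I X Q _ _ _ _ _ _ q hq μ hμ N β hβ h
  classical
  have hP := prodW_prob hq
  obtain ⟨Wf, hWf⟩ : ∃ Wf : (I → X) → V → Finset Q, ∀ x a w, w ∈ Wf x a ↔ a ∈ N w x :=
    ⟨fun x a => univ.filter fun w => a ∈ N w x, fun x a w => by simp⟩
  have hQ : (0 : ℝ) < Fintype.card Q := by exact_mod_cast Fintype.card_pos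
  have hcard : ∀ x a, ((Wf x a).card : ℝ) = ∑ w, ind (a ∈ N w x) := by
    intro x a
    rw [Finset.card_eq_sum_ones, Nat.cast_sum, ← Finset.sum_subset (subset_univ (Wf x a))]
    · refine sum_congr rfl fun w hw => ?_
      rw [ind_true ((hWf x a w).1 hw)]
      simp
    · intro w _ hw
      rw [ind_false fun h => hw ((hWf x a w).2 h)]
  have h1 : β * Fintype.card Q ≤
      ex (prodW q) (fun x => ex (μ x) (fun a => ((Wf x a).card : ℝ))) := by
    have e : ex (prodW q) (fun x => ex (μ x) (fun a => ((Wf x a).card : ℝ))) =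
        ∑ w : Q, ex (prodW q) (fun x => pr (μ x) (fun a => a ∈ N w x)) := by
      simp only [hcard]
      rw [← ex_sum]
      refine ex_congr fun x _ => ?_
      exact ex_sum univ (μ x) (fun w a => ind (a ∈ N w x))
    rw [e]
    calc β * Fintype.card Q = ∑ _w : Q, β := by
          rw [sum_const, card_univ, nsmul_eq_mul, mul_comm]
      _ ≤ _ := sum_le_sum fun w _ => h w
  have h2 : ex (prodW q) (fun x => ex (μ x) (fun a => ((Wf x a).card : ℝ))) ≤
      Fintype.card Q * ex (prodW q) (fun x => pr (μ x) (fun a =>
        β / 2 * Fintype.card Q ≤ (Wf x a).card)) + β / 2 * Fintype.card Q := by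
    obtain ⟨c, hc⟩ : ∃ c : ℝ, c = β / 2 * Fintype.card Q := ⟨_, rfl⟩
    have hc0 : 0 ≤ c := by rw [hc]; positivity
    rw [← hc]
    calc ex (prodW q) (fun x => ex (μ x) (fun a => ((Wf x a).card : ℝ))) ≤
        ex (prodW q) (fun x => Fintype.card Q * pr (μ x) (fun a => c ≤ (Wf x a).card) + c) := by
          refine ex_mono' hP.1 fun x => ?_
          calc ex (μ x) (fun a => ((Wf x a).card : ℝ)) ≤
              ex (μ x) (fun a => Fintype.card Q * ind (c ≤ ((Wf x a).card : ℝ)) + c) := by
                refine ex_mono' (hμ x).1 fun a => ?_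
                have hle : ((Wf x a).card : ℝ) ≤ Fintype.card Q := by
                  exact_mod_cast card_le_univ _
                by_cases hca : c ≤ ((Wf x a).card : ℝ)
                · rw [ind_true hca]
                  linarith
                · rw [ind_false hca]
                  push Not at hca
                  linarith
            _ = _ := by
                rw [ex_add, ex_mul_left, ex_const (hμ x)]
                rfl
      _ = _ := by rw [ex_add, ex_mul_left, ex_const hP]
  have h3 : β / 2 ≤ ex (prodW q) (fun x => pr (μ x) (fun a =>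
      β / 2 * Fintype.card Q ≤ (Wf x a).card)) := by
    have h4 := h1.trans h2
    by_contra hlt
    push Not at hlt
    nlinarith
  -- split over the values
  have h5 : ex (prodW q) (fun x => pr (μ x) (fun a =>
      β / 2 * Fintype.card Q ≤ (Wf x a).card)) ≤
      ∑ W ∈ univ.filter (fun W : Finset Q => β / 2 * Fintype.card Q ≤ W.card),
        ex (prodW q) (fun x => pr (μ x) (fun a => Wf x a = W)) := by
    rw [← ex_sum]
    refine ex_mono' hP.1 fun x => ?_
    unfold pr
    rw [← ex_sum]
    refine ex_mono' (hμ x).1 fun a => ?_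
    by_cases hc : β / 2 * Fintype.card Q ≤ (Wf x a).card
    · rw [ind_true hc]
      have := single_le_sum (f := fun W => ind (Wf x a = W))
        (s := univ.filter (fun W : Finset Q => β / 2 * Fintype.card Q ≤ W.card))
        (fun W _ => ind_nonneg _) (mem_filter.2 ⟨mem_univ _, hc⟩)
      rwa [ind_true rfl] at this
    · rw [ind_false hc]
      exact sum_nonneg fun W _ => ind_nonneg _
  obtain ⟨W, hW, hWc⟩ : ∃ W ∈ univ.filter (fun W : Finset Q => β / 2 * Fintype.card Q ≤ W.card),
      β / 2 * (1 / 2) ^ Fintype.card Q ≤ ex (prodW q) (fun x => pr (μ x) (fun a => Wf x a = W)) := by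
    by_contra hcon
    push Not at hcon
    have hpos : (0 : ℝ) < β / 2 * (1 / 2) ^ Fintype.card Q := by positivity
    have h6 : ∑ W ∈ univ.filter (fun W : Finset Q => β / 2 * Fintype.card Q ≤ W.card),
        ex (prodW q) (fun x => pr (μ x) (fun a => Wf x a = W)) < β / 2 := by
      by_cases hne : (univ.filter (fun W : Finset Q => β / 2 * Fintype.card Q ≤ W.card)).Nonempty
      · refine lt_of_lt_of_le (sum_lt_sum_of_nonempty hne hcon) ?_
        rw [sum_const, nsmul_eq_mul]
        have h7 : ((univ.filter (fun W : Finset Q =>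
            β / 2 * Fintype.card Q ≤ W.card)).card : ℝ) ≤ 2 ^ Fintype.card Q := by
          have := card_le_univ (univ.filter (fun W : Finset Q => β / 2 * Fintype.card Q ≤ W.card))
          rw [Fintype.card_finset] at this
          exact_mod_cast this
        calc ((univ.filter (fun W : Finset Q => β / 2 * Fintype.card Q ≤ W.card)).card : ℝ) *
              (β / 2 * (1 / 2) ^ Fintype.card Q) ≤
              2 ^ Fintype.card Q * (β / 2 * (1 / 2) ^ Fintype.card Q) :=
              mul_le_mul_of_nonneg_right h7 hpos.le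
          _ = β / 2 * (2 * (1 / 2)) ^ Fintype.card Q := by rw [mul_pow]; ring
          _ = β / 2 := by norm_num
      · rw [not_nonempty_iff_eq_empty] at hne
        rw [hne, sum_empty]
        positivity
    linarith
  refine ⟨W, (mem_filter.1 hW).2, ?_⟩
  have h8 : β / 2 * (1 / 2) ^ Fintype.card Q ≤
      ex (prodW q) (fun x => pr (μ x) (fun a => ∀ w ∈ W, a ∈ N w x)) := by
    refine hWc.trans (ex_mono' hP.1 fun x => pr_mono' (hμ x).1 fun a ha w hw => ?_)
    rw [← ha] at hw
    exact (hWf x a w).1 hw
  have h9 := reverse_markov hP (fun x => pr_le_one (hμ x) _) (by positivity) h8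
  have e : β / 2 * (1 / 2) ^ Fintype.card Q / 2 = β / 4 * (1 / 2) ^ Fintype.card Q := by ring
  rw [e] at h9
  exact h9

end Pool.Agent.H59.DM
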