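import Pool.Agent.H71.DM.Targets
import Pool.Agent.H71.DM.Basic

set_option autoImplicit false

/-!
Poset tournaments are unavoidable (module UNA).
-/

namespace Pool.Agent.H59.DM

open Finset Pool.Agent.H71.DM

theorem base (G : TSeq) (R : ℕ → ℕ → Prop) (hr : Rich G (fun _ => Set.univ)) (η : ℝ)
    (hη : 0 < η) : MState G R 0 η := by
  refine ⟨Fin 0, inferInstance, inferInstance, fun _ => ∅, 0, 1, fun _ => Set.univ,
    fun _ _ _ => 0, fun n _ _ => Classical.arbitrary _, fun _ _ _ => ∅,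
    fun _ _ => True, one_pos, hr, fun n i => i.elim0, Filter.Eventually.of_forall fun n => ?_⟩
  have hP : IsProb (prodW (fun (_ : Fin 0) (_ : Seed (G.V n)) => (0 : ℝ))) :=
    prodW_prob fun i => i.elim0
  refine ⟨?_, ?_, ?_, ?_, ?_, ?_, ?_, ?_⟩
  · intro C C' _ _ _
    exact subset_rfl
  · intro C x _
    simp
  · intro C _ x y _
    rfl
  · intro C x hC k hk
    exact absurd (hC.1 k hk) (Nat.not_lt_zero _)
  · rw [pr_true hP]
  · intro x _ k l hl
    exact absurd hl (Nat.not_lt_zero _)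
  · refine le_trans (le_of_eq ?_) (mul_nonneg hη.le (pr_nonneg hP.1 _))
    rw [← pr_false (prodW (fun (_ : Fin 0) (_ : Seed (G.V n)) => (0 : ℝ)))]
    refine pr_congr fun x _ => ?_
    constructor
    · rintro ⟨_, k, l, _, hl, _⟩
      exact absurd hl (Nat.not_lt_zero _)
    · exact False.elim
  · intro C _ s _
    refine le_trans (le_of_eq ?_) (mul_nonneg hη.le (pr_nonneg hP.1 _))
    rw [← pr_false (prodW (fun (_ : Fin 0) (_ : Seed (G.V n)) => (0 : ℝ)))]
    refine pr_congr fun x _ => ?_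
    constructor
    · rintro ⟨_, _, _, k, hk, _⟩
      exact absurd hk (Nat.not_lt_zero _)
    · exact False.elim

theorem una (hS : StepStmt) : UnavoidStmt := by
  intro G R m h1 h2 hr hcon
  have key : ∀ j, ∀ η : ℝ, 0 < η → MState G R j η := by
    intro j
    induction j with
    | zero => exact fun η hη => base G R hr η hη
    | succ j ih => exact hS G R m h1 h2 hcon j ih
  obtain ⟨I, _, _, Γ, K, α, T, q, v, W, A, hα, hT, hq, hMS⟩ := key m (1 / 2) (by norm_num)
  obtain ⟨n, hn, hc⟩ := (hMS.and hcon).exists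
  have hP := prodW_prob (hq n)
  have hpos : 0 < pr (prodW (q n)) (A n) := lt_of_lt_of_le hα hn.pos
  have hlt : pr (prodW (q n)) (fun x => A n x ∧ ∃ k l, k < l ∧ l < m ∧ ¬ R k l ∧
      ¬ G.adj n (v n k x) (v n l x)) < pr (prodW (q n)) (A n) := by
    refine lt_of_le_of_lt hn.req ?_
    linarith
  obtain ⟨x, -, hA, hx⟩ := exists_of_pr_lt hP.1 hlt
  refine hc (fun i => v n i x) ?_
  intro a b hab
  constructor
  · intro hR
    by_contra hadj
    exact hx ⟨hA, a, b, hab, b.2, hR, hadj⟩
  · intro hR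
    exact hn.beats x hA a b b.2 (not_not.1 hR)

end Pool.Agent.H59.DM
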